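import Mathlib

set_option autoImplicit false

open Filter Topology

namespace Pool.Agent.Results.MP_3e6e51_an.BowenNotWalters

variable {A : Type*}

/-- The left shift on one-sided sequences. -/
def shift (x : ℕ → A) : ℕ → A := fun n => x (n + 1)

/-- The metric `d(x, y) = 2^{-min {i : x_i ≠ y_i}}` for `x ≠ y`, and `d(x, x) = 0`. -/
noncomputable def d (x y : ℕ → A) : ℝ :=
  open Classical in if x = y then 0 else (2 : ℝ)⁻¹ ^ (sInf {i : ℕ | x i ≠ y i})

/-- Walters functions: `S_n f(x)` and `S_n f(y)` are `κ`-close as soon as the orbit pieces of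
length `n` of `x` and `y` are `ε(κ)`-close. -/
def IsWalters (f : (ℕ → A) → ℝ) : Prop :=
  ∀ κ : ℝ, 0 < κ → ∃ ε : ℝ, 0 < ε ∧ ∀ n : ℕ, 1 ≤ n → ∀ x y : ℕ → A,
    (∀ k : ℕ, k < n → d (shift^[k] x) (shift^[k] y) < ε) →
      |birkhoffSum shift f n x - birkhoffSum shift f n y| < κ

/-- Bowen functions: `S_n f(x)` and `S_n f(y)` are `M`-close as soon as the orbit pieces of
length `n` of `x` and `y` are `ε`-close. -/
def IsBowen (f : (ℕ → A) → ℝ) : Prop :=
  ∃ M ε : ℝ, 0 < M ∧ 0 < ε ∧ ∀ n : ℕ, 1 ≤ n → ∀ x y : ℕ → A,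
    (∀ k : ℕ, k < n → d (shift^[k] x) (shift^[k] y) < ε) →
      |birkhoffSum shift f n x - birkhoffSum shift f n y| ≤ M

/-- Coboundaries `q ∘ σ - q` with `q` continuous. -/
def Cob (A : Type*) [TopologicalSpace A] : Set C(ℕ → A, ℝ) :=
  {g | ∃ q : C(ℕ → A, ℝ), ∀ x, g x = q (shift x) - q x}

/-! ### Elementary facts on the metric and the shift -/

lemma shift_iterate (k : ℕ) (x : ℕ → A) (i : ℕ) : (shift^[k] x) i = x (i + k) := by
  induction k generalizing x with
  | zero => rfl
  | succ k ih =>
    rw [Function.iterate_succ, Function.comp_apply, ih]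
    simp only [shift]
    congr 1

lemma eq_zero_of_d_lt_one {x y : ℕ → A} (h : d x y < 1) : x 0 = y 0 := by
  by_contra hne
  have hxy : x ≠ y := fun h' => hne (by rw [h'])
  have h0 : sInf {i : ℕ | x i ≠ y i} = 0 := by
    apply Nat.sInf_eq_zero.2
    left
    exact hne
  unfold d at h
  rw [if_neg hxy, h0] at h
  simp at h

lemma d_le_of_agree {x y : ℕ → A} {N : ℕ} (h : ∀ i, i < N → x i = y i) :
    d x y ≤ (2 : ℝ)⁻¹ ^ N := by
  unfold d
  split_ifs with hxy
  · positivity
  · have hne : {i : ℕ | x i ≠ y i}.Nonempty := Function.ne_iff.1 hxy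
    have hN : N ≤ sInf {i : ℕ | x i ≠ y i} := by
      by_contra hlt
      push Not at hlt
      exact (Nat.sInf_mem hne) (h _ hlt)
    exact pow_le_pow_of_le_one (by norm_num) (by norm_num) hN

/-! ### The slowly oscillating sequence -/

/-- `s_j = cos (π log₂ (j+1))`. -/
noncomputable def s (j : ℕ) : ℝ := Real.cos (Real.pi * Real.logb 2 ((j : ℝ) + 1))

lemma abs_s_le (j : ℕ) : |s j| ≤ 1 := Real.abs_cos_le_one _

lemma s_two_pow (m : ℕ) : s (2 ^ m - 1) = (-1) ^ m := by
  have h1 : ((2 ^ m - 1 : ℕ) : ℝ) + 1 = (2 : ℝ) ^ m := by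
    have : 1 ≤ 2 ^ m := Nat.one_le_two_pow
    push_cast [Nat.cast_sub this]
    ring
  unfold s
  rw [h1, Real.logb_pow, Real.logb_self_eq_one (by norm_num), mul_one, mul_comm,
    Real.cos_nat_mul_pi]

lemma tendsto_s_sub : Tendsto (fun j : ℕ => s (j + 1) - s j) atTop (𝓝 0) := by
  have hb : ∀ j : ℕ, |s (j + 1) - s j|
      ≤ Real.pi / Real.log 2 * (((j : ℝ) + 1))⁻¹ := by
    intro j
    have hj : (0 : ℝ) < (j : ℝ) + 1 := by positivity
    have hl2 : 0 < Real.log 2 := Real.log_pos (by norm_num)
    have h1 : |s (j + 1) - s j| ≤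
        |Real.pi * Real.logb 2 (((j + 1 : ℕ) : ℝ) + 1) - Real.pi * Real.logb 2 ((j : ℝ) + 1)| :=
      Real.abs_cos_sub_cos_le _ _
    refine h1.trans ?_
    have h2 : Real.pi * Real.logb 2 (((j + 1 : ℕ) : ℝ) + 1) - Real.pi * Real.logb 2 ((j : ℝ) + 1)
        = Real.pi / Real.log 2 * Real.log (1 + ((j : ℝ) + 1)⁻¹) := by
      have : 1 + ((j : ℝ) + 1)⁻¹ = (((j + 1 : ℕ) : ℝ) + 1) / ((j : ℝ) + 1) := by
        push_cast
        field_simp
      rw [this, Real.log_div (by positivity) hj.ne']
      simp only [Real.logb]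
      ring
    rw [h2, abs_of_nonneg]
    · gcongr
      have := Real.log_le_sub_one_of_pos (show 0 < 1 + ((j : ℝ) + 1)⁻¹ by positivity)
      linarith
    · have : 0 ≤ Real.log (1 + ((j : ℝ) + 1)⁻¹) :=
        Real.log_nonneg (by linarith [inv_pos.2 hj])
      have := Real.pi_pos
      positivity
  have hlim : Tendsto (fun j : ℕ => Real.pi / Real.log 2 * (((j : ℝ) + 1))⁻¹) atTop (𝓝 0) := by
    have := (tendsto_one_div_add_atTop_nhds_zero_nat (𝕜 := ℝ)).const_mul (Real.pi / Real.log 2)
    simpa [one_div] using this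
  exact squeeze_zero_norm (fun j => by simpa using hb j) hlim

/-! ### The function -/

/-- `x` starts with exactly `l` letters `a`. -/
def First (a : A) (x : ℕ → A) (l : ℕ) : Prop := (∀ i, i < l → x i = a) ∧ x l ≠ a

open Classical in
/-- `u(x) = s_l` if `x` starts with exactly `l` letters `a`, and `u(aaa…) = 0`. -/
noncomputable def u (a : A) (x : ℕ → A) : ℝ :=
  if ∃ i, x i ≠ a then s (sInf {i : ℕ | x i ≠ a}) else 0

open Classical in
/-- The Bowen function: `s_l - s_{l-1}` on sequences starting with exactly `l ≥ 1` letters `a`,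
and `0` on all other sequences. -/
noncomputable def phi (a : A) (x : ℕ → A) : ℝ :=
  if x 0 = a then u a x - u a (shift x) else 0

lemma u_of_first {a : A} {x : ℕ → A} {l : ℕ} (h : First a x l) : u a x = s l := by
  have hex : ∃ i, x i ≠ a := ⟨l, h.2⟩
  have hl : sInf {i : ℕ | x i ≠ a} = l := by
    apply le_antisymm
    · exact Nat.sInf_le h.2
    · by_contra hlt
      push Not at hlt
      exact (Nat.sInf_mem (s := {i : ℕ | x i ≠ a}) ⟨l, h.2⟩) (h.1 _ hlt)
  rw [u, if_pos hex, hl]

lemma u_of_all {a : A} {x : ℕ → A} (h : ∀ i, x i = a) : u a x = 0 := by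
  rw [u, if_neg]
  push Not
  exact h

lemma abs_u_le (a : A) (x : ℕ → A) : |u a x| ≤ 1 := by
  unfold u
  split_ifs
  · exact abs_s_le _
  · simp

lemma exists_first {a : A} {x : ℕ → A} (h : ∃ i, x i ≠ a) : ∃ l, First a x l := by
  classical
  refine ⟨Nat.find h, fun i hi => ?_, Nat.find_spec h⟩
  have := Nat.find_min h hi
  push Not at this
  exact this

lemma first_shift {a : A} {x : ℕ → A} {l : ℕ} (h : First a x (l + 1)) : First a (shift x) l :=
  ⟨fun i hi => h.1 (i + 1) (by omega), h.2⟩

lemma phi_of_first_zero {a : A} {x : ℕ → A} (h : x 0 ≠ a) : phi a x = 0 := by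
  rw [phi, if_neg h]

lemma phi_of_first_succ {a : A} {x : ℕ → A} {l : ℕ} (h : First a x (l + 1)) :
    phi a x = s (l + 1) - s l := by
  rw [phi, if_pos (h.1 0 (by omega)), u_of_first h, u_of_first (first_shift h)]

lemma phi_of_all {a : A} {x : ℕ → A} (h : ∀ i, x i = a) : phi a x = 0 := by
  rw [phi, if_pos (h 0), u_of_all h, u_of_all (x := shift x) (fun i => h (i + 1)), sub_zero]

/-- `phi` only depends on the number of leading letters `a`. -/
lemma phi_congr {a : A} {x y : ℕ → A} {l : ℕ} (hx : First a x l) (hy : First a y l) :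
    phi a x = phi a y := by
  cases l with
  | zero => rw [phi_of_first_zero hx.2, phi_of_first_zero hy.2]
  | succ l => rw [phi_of_first_succ hx, phi_of_first_succ hy]

section top

variable [TopologicalSpace A] [DiscreteTopology A]

lemma nhds_agree (x : ℕ → A) (N : ℕ) : {y : ℕ → A | ∀ i, i < N → y i = x i} ∈ 𝓝 x := by
  have h : {y : ℕ → A | ∀ i, i < N → y i = x i}
      = ⋂ i ∈ Finset.range N, (fun y : ℕ → A => y i) ⁻¹' {x i} := by
    ext y; simp
  rw [h]
  refine (Finset.iInter_mem_sets _).2 fun i _ => ?_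
  exact (continuous_apply i).continuousAt.preimage_mem_nhds (by simp)

lemma continuous_phi (a : A) : Continuous (phi a) := by
  rw [continuous_iff_continuousAt]
  intro x
  by_cases hx : ∃ i, x i ≠ a
  · obtain ⟨l, hl⟩ := exists_first hx
    have : (fun _ => phi a x) =ᶠ[𝓝 x] phi a := by
      filter_upwards [nhds_agree x (l + 1)] with y hy
      have hy' : First a y l :=
        ⟨fun i hi => by rw [hy i (by omega)]; exact hl.1 i hi,
          by rw [hy l (by omega)]; exact hl.2⟩
      exact phi_congr hl hy'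
    exact continuousAt_const.congr this
  · push Not at hx
    rw [ContinuousAt, phi_of_all hx, Metric.tendsto_nhds]
    intro ε hε
    obtain ⟨N, hN⟩ := Filter.eventually_atTop.1 ((Metric.tendsto_nhds.1 tendsto_s_sub) ε hε)
    filter_upwards [nhds_agree x (N + 1)] with y hy
    by_cases hya : ∃ i, y i ≠ a
    · obtain ⟨l, hl⟩ := exists_first hya
      have hlN : N + 1 ≤ l := by
        by_contra hlt
        push Not at hlt
        exact hl.2 (by rw [hy l hlt, hx l])
      obtain ⟨m, rfl⟩ : ∃ m, l = m + 1 := ⟨l - 1, by omega⟩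
      rw [phi_of_first_succ hl]
      exact hN m (by omega)
    · push Not at hya
      rw [phi_of_all hya]
      simpa using hε

end top

/-! ### `phi` is a Bowen function -/

lemma sum_of_all {a : A} (n : ℕ) {x : ℕ → A} (h : ∀ i, i < n → x i = a) :
    birkhoffSum shift (phi a) n x = u a x - u a (shift^[n] x) := by
  have h1 : birkhoffSum shift (phi a) n x
      = ∑ i ∈ Finset.range n, (u a (shift^[i] x) - u a (shift^[i + 1] x)) := by
    unfold birkhoffSum
    refine Finset.sum_congr rfl fun i hi => ?_
    rw [Finset.mem_range] at hi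
    rw [phi, if_pos (by rw [shift_iterate]; exact h _ (by omega)),
      Function.iterate_succ_apply']
  rw [h1, Finset.sum_range_sub']
  rfl

lemma bowen_aux {a : A} (n : ℕ) : ∀ {x y : ℕ → A}, (∀ i, i < n → x i = y i) →
    |birkhoffSum shift (phi a) n x - birkhoffSum shift (phi a) n y| ≤ 4 := by
  induction n with
  | zero => intro x y _; simp
  | succ n ih =>
    intro x y hxy
    by_cases hall : ∀ i, i < n + 1 → x i = a
    · have hally : ∀ i, i < n + 1 → y i = a := fun i hi => by rw [← hxy i hi]; exact hall i hi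
      rw [sum_of_all _ hall, sum_of_all _ hally]
      have h1 := abs_le.1 (abs_u_le a x)
      have h2 := abs_le.1 (abs_u_le a y)
      have h3 := abs_le.1 (abs_u_le a (shift^[n + 1] x))
      have h4 := abs_le.1 (abs_u_le a (shift^[n + 1] y))
      rw [abs_le]
      constructor <;> linarith [h1.1, h1.2, h2.1, h2.2, h3.1, h3.2, h4.1, h4.2]
    · push Not at hall
      obtain ⟨i₀, hi₀, hne⟩ := hall
      obtain ⟨l, hl⟩ := exists_first ⟨i₀, hne⟩
      have hli : l ≤ i₀ := by
        by_contra hlt
        push Not at hlt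
        exact hne (hl.1 _ hlt)
      have hly : First a y l :=
        ⟨fun i hi => by rw [← hxy i (by omega)]; exact hl.1 i hi,
          by rw [← hxy l (by omega)]; exact hl.2⟩
      rw [birkhoffSum_succ', birkhoffSum_succ', phi_congr hl hly, add_sub_add_left_eq_sub]
      exact ih fun i hi => hxy (i + 1) (by omega)

lemma isBowen_phi (a : A) : IsBowen (phi a) := by
  refine ⟨4, 1, by norm_num, by norm_num, fun n _ x y h => bowen_aux n fun i hi => ?_⟩
  have := eq_zero_of_d_lt_one (h i hi)
  rw [shift_iterate, shift_iterate] at this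
  simpa using this

/-! ### Periodic points and weak coboundaries -/

open Classical in
/-- The periodic point `(a^k b)^∞`. -/
noncomputable def per (a b : A) (k : ℕ) : ℕ → A := fun i => if i % (k + 1) = k then b else a

lemma per_period (a b : A) (k : ℕ) : shift^[k + 1] (per a b k) = per a b k := by
  funext i
  rw [shift_iterate]
  simp [per]

lemma birkhoffSum_phi_per {a b : A} (hab : b ≠ a) (k : ℕ) :
    birkhoffSum shift (phi a) (k + 1) (per a b k) = s k - s 0 := by
  have h1 : ∀ i, i < k → per a b k i = a := by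
    intro i hi
    have : i % (k + 1) = i := Nat.mod_eq_of_lt (by omega)
    simp only [per, this]
    rw [if_neg (by omega)]
  have hk : First a (per a b k) k := by
    refine ⟨h1, ?_⟩
    have : k % (k + 1) = k := Nat.mod_eq_of_lt (by omega)
    simp only [per, this, if_true]
    exact hab
  have hk2 : First a (shift^[k] (per a b k)) 0 := by
    refine ⟨fun i hi => by omega, ?_⟩
    rw [shift_iterate, zero_add]
    exact hk.2
  rw [birkhoffSum_succ, sum_of_all k h1, phi_of_first_zero hk2.2, u_of_first hk, u_of_first hk2,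
    add_zero]

lemma closure_cob_sum [TopologicalSpace A] [CompactSpace (ℕ → A)] {g : C(ℕ → A, ℝ)}
    (hg : g ∈ closure (Cob A)) {x : ℕ → A} {n : ℕ} (hx : shift^[n] x = x) :
    birkhoffSum shift g n x = 0 := by
  have hc : Continuous fun g : C(ℕ → A, ℝ) => birkhoffSum shift g n x := by
    unfold birkhoffSum
    exact continuous_finsetSum _ fun i _ => continuous_eval_const _
  have hclosed : IsClosed {g : C(ℕ → A, ℝ) | birkhoffSum shift g n x = 0} :=
    isClosed_singleton.preimage hc
  have hsub : Cob A ⊆ {g : C(ℕ → A, ℝ) | birkhoffSum shift g n x = 0} := by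
    rintro g ⟨q, hq⟩
    have : birkhoffSum shift g n x
        = ∑ i ∈ Finset.range n, (q (shift^[i + 1] x) - q (shift^[i] x)) := by
      unfold birkhoffSum
      refine Finset.sum_congr rfl fun i _ => ?_
      rw [hq, Function.iterate_succ_apply']
    change birkhoffSum shift g n x = 0
    rw [this, Finset.sum_range_sub (fun i => q (shift^[i] x)) n, hx]
    simp
  exact closure_minimal hsub hclosed hg

lemma birkhoffSum_const {a : A} (h : (ℕ → A) → ℝ) (n : ℕ) (h0 : h (fun _ => a) = 0) :
    birkhoffSum shift h n (fun _ => a) = 0 := by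
  unfold birkhoffSum
  refine Finset.sum_eq_zero fun i _ => ?_
  have : shift^[i] (fun _ : ℕ => a) = fun _ => a := by
    funext j; rw [shift_iterate]
  rw [this, h0]

/-- For a Walters function `h` vanishing at `aaa…` the sums over the periodic orbits
`(a^k b)^∞` form a Cauchy sequence: they cannot oscillate. -/
lemma walters_sums [TopologicalSpace A] {h : (ℕ → A) → ℝ} (hc : Continuous h)
    (hW : IsWalters h) (a b : A) (h0 : h (fun _ => a) = 0) (κ : ℝ) (hκ : 0 < κ) :
    ∃ K : ℕ, ∀ k k', K ≤ k → K ≤ k' →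
      |birkhoffSum shift h (k + 1) (per a b k) - birkhoffSum shift h (k' + 1) (per a b k')|
        < 4 * κ := by
  classical
  obtain ⟨ε, hε, hW⟩ := hW κ hκ
  obtain ⟨N, hN⟩ : ∃ N : ℕ, (2 : ℝ)⁻¹ ^ N < ε := exists_pow_lt_of_lt_one hε (by norm_num)
  -- the tail sums converge
  have hlim : ∀ j : ℕ, Tendsto (fun k => h (shift^[k - j] (per a b k))) atTop
      (𝓝 (h (fun i => if i = j then b else a))) := by
    intro j
    refine (hc.tendsto _).comp (tendsto_pi_nhds.2 fun i => ?_)
    refine tendsto_const_nhds.congr' ?_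
    filter_upwards [eventually_ge_atTop (i + j + 1)] with k hk
    rw [shift_iterate]
    simp only [per]
    rcases lt_trichotomy i j with hij | hij | hij
    · have : (i + (k - j)) % (k + 1) = i + (k - j) := Nat.mod_eq_of_lt (by omega)
      rw [if_neg hij.ne, this, if_neg (by omega)]
    · have : (i + (k - j)) % (k + 1) = i + (k - j) := Nat.mod_eq_of_lt (by omega)
      rw [if_pos hij, this, if_pos (by omega)]
    · have h2 : (i + (k - j)) % (k + 1) = i - j - 1 := by
        have : i + (k - j) = (i - j - 1) + (k + 1) := by omega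
        rw [this, Nat.add_mod_right]
        exact Nat.mod_eq_of_lt (by omega)
      rw [if_neg (by omega), h2, if_neg (by omega)]
  have hsum : Tendsto (fun k => ∑ j ∈ Finset.range N, h (shift^[k - j] (per a b k))) atTop
      (𝓝 (∑ j ∈ Finset.range N, h (fun i => if i = j then b else a))) :=
    tendsto_finsetSum _ fun j _ => hlim j
  obtain ⟨K, hK⟩ := Filter.eventually_atTop.1 ((Metric.tendsto_nhds.1 hsum) κ hκ)
  -- each orbit sum is within `κ` of its tail
  have htail : ∀ k, N ≤ k →
      |birkhoffSum shift h (k + 1) (per a b k)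
        - ∑ j ∈ Finset.range N, h (shift^[k - j] (per a b k))| < κ := by
    intro k hk
    have hsplit : birkhoffSum shift h (k + 1) (per a b k)
        = birkhoffSum shift h (k + 1 - N) (per a b k)
          + ∑ j ∈ Finset.range N, h (shift^[k - j] (per a b k)) := by
      have h1 : k + 1 = (k + 1 - N) + N := by omega
      conv_lhs => rw [h1]
      rw [birkhoffSum_add]
      congr 1
      unfold birkhoffSum
      rw [← Finset.sum_range_reflect]
      refine Finset.sum_congr rfl fun j hj => ?_
      rw [Finset.mem_range] at hj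
      rw [← Function.iterate_add_apply]
      congr 2
      omega
    rw [hsplit, add_sub_cancel_right]
    have h2 := hW (k + 1 - N) (by omega) (per a b k) (fun _ => a) (fun i hi => by
      refine (d_le_of_agree (N := N) fun j hj => ?_).trans_lt hN
      rw [shift_iterate, shift_iterate]
      have : (j + i) % (k + 1) = j + i := Nat.mod_eq_of_lt (by omega)
      simp only [per, this]
      rw [if_neg (by omega)])
    rw [birkhoffSum_const h _ h0, sub_zero] at h2
    exact h2
  refine ⟨max K N, fun k k' hk hk' => ?_⟩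
  have e1 := abs_lt.1 (htail k (le_trans (le_max_right _ _) hk))
  have e2 := abs_lt.1 (htail k' (le_trans (le_max_right _ _) hk'))
  have e3 := hK k (le_trans (le_max_left _ _) hk)
  have e4 := hK k' (le_trans (le_max_left _ _) hk')
  rw [Real.dist_eq] at e3 e4
  have e3' := abs_lt.1 e3
  have e4' := abs_lt.1 e4
  rw [abs_lt]
  constructor <;> linarith [e1.1, e1.2, e2.1, e2.2, e3'.1, e3'.2, e4'.1, e4'.2]

/-- **Negative answer.** For every finite alphabet `A` with at least two letters there is a
continuous Bowen function on the full shift `A^ℕ` that is not the sum of a weak coboundary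
(an element of the sup-norm closure of the coboundaries) and a continuous Walters function. -/
theorem result (A : Type*) [Finite A] [Nontrivial A] [TopologicalSpace A] [DiscreteTopology A] :
    ∃ φ : C(ℕ → A, ℝ), IsBowen φ ∧
      ∀ g ∈ closure (Cob A), ∀ h : C(ℕ → A, ℝ), IsWalters h → φ ≠ g + h := by
  obtain ⟨a, b, hab⟩ := exists_pair_ne A
  refine ⟨⟨phi a, continuous_phi a⟩, isBowen_phi a, ?_⟩
  intro g hg h hW heq
  have hval : ∀ x, phi a x = g x + h x := fun x => by
    have := congrArg (fun f : C(ℕ → A, ℝ) => f x) heq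
    simpa using this
  have hsum : ∀ (n : ℕ) (x : ℕ → A), birkhoffSum shift (phi a) n x
      = birkhoffSum shift g n x + birkhoffSum shift h n x := by
    intro n x
    unfold birkhoffSum
    rw [← Finset.sum_add_distrib]
    exact Finset.sum_congr rfl fun i _ => hval _
  have h0 : h (fun _ => a) = 0 := by
    have hper : shift^[1] (fun _ : ℕ => a) = fun _ => a := rfl
    have h1 := closure_cob_sum hg hper
    have h2 := hval (fun _ => a)
    rw [birkhoffSum_one] at h1
    rw [phi_of_all (fun _ => rfl), h1, zero_add] at h2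
    exact h2.symm
  obtain ⟨K, hK⟩ := walters_sums h.continuous hW a b h0 (1 / 4) (by norm_num)
  have hT : ∀ k, birkhoffSum shift h (k + 1) (per a b k) = s k - s 0 := by
    intro k
    have h1 := hsum (k + 1) (per a b k)
    rw [birkhoffSum_phi_per hab.symm, closure_cob_sum hg (per_period a b k), zero_add] at h1
    exact h1.symm
  have hk1 : K ≤ 2 ^ (2 * K) - 1 := by
    have := (Nat.lt_two_pow_self (n := 2 * K))
    omega
  have hk2 : K ≤ 2 ^ (2 * K + 1) - 1 := by
    have := (Nat.lt_two_pow_self (n := 2 * K + 1))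
    omega
  have := hK _ _ hk1 hk2
  rw [hT, hT, s_two_pow, s_two_pow] at this
  have e1 : ((-1 : ℝ)) ^ (2 * K) = 1 := by rw [pow_mul]; simp
  have e2 : ((-1 : ℝ)) ^ (2 * K + 1) = -1 := by rw [pow_succ, e1]; simp
  rw [e1, e2] at this
  norm_num at this

end Pool.Agent.Results.MP_3e6e51_an.BowenNotWalters
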